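import Pool.Agent.Work.MP_db9399_sx.Pre

/-!
# MP_db9399, PHASE 2 of exception (iii), block TLB: linear tests of the types (helper6)
-/

set_option autoImplicit false

namespace Pool.Agent.Work.MP_db9399_sx.helper6

open Finset Classical
open Pool.Agent.Work.MP_db9399_all (nb)
open Pool.Agent.Work.MP_db9399_ot.helper1 (Kp Lb)
open Pool.Agent.Work.MP_db9399_sw (shs sms wt wl avgL)

universe u

section lin
variable {V : Type u} {T : Type}

/-- a linear test: weights `om` on `A`, labels with `P` -/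
noncomputable def lin (A : Finset V) (om : V → ℝ) (P : T → Prop) (f : V → T) : ℝ :=
  ∑ v ∈ A, om v * (if P (f v) then 1 else 0)

theorem lin_eq (A : Finset V) (om : V → ℝ) (P : T → Prop) (f : V → T) :
    lin A om P f = ∑ v ∈ A.filter (fun v => P (f v)), om v := by
  unfold lin
  rw [Finset.sum_filter]
  apply Finset.sum_congr rfl
  intro v _
  split_ifs <;> simp

theorem lin_lip (A : Finset V) (om : V → ℝ) (h0 : ∀ v, 0 ≤ om v) (P : T → Prop) (v : V)
    (f f' : V → T) (h : ∀ w, w ≠ v → f w = f' w) :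
    |lin A om P f - lin A om P f'| ≤ (if v ∈ A then om v else 0) := by
  unfold lin
  rw [← Finset.sum_sub_distrib]
  by_cases hv : v ∈ A
  · rw [if_pos hv, Finset.sum_eq_single_of_mem v hv]
    · rw [← mul_sub, abs_mul, abs_of_nonneg (h0 v)]
      have : |(if P (f v) then (1 : ℝ) else 0) - (if P (f' v) then 1 else 0)| ≤ 1 := by
        split_ifs <;> simp
      nlinarith [h0 v]
    · intro w _ hw
      rw [h w hw]
      ring
  · rw [if_neg hv, Finset.sum_eq_zero]
    · simp
    · intro w hw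
      have : w ≠ v := fun h' => hv (h' ▸ hw)
      rw [h w this]
      ring

theorem avg_one [Fintype V] [Fintype T] [Nonempty T] (ψ : T → ℝ) (v : V) :
    avgL (fun f : V → T => ψ (f v)) = (∑ t, ψ t) / Fintype.card T := by
  unfold avgL
  have h1 : ∑ f : V → T, ψ (f v) = ∏ w : V, ∑ t : T, (if w = v then ψ t else 1) := by
    rw [Fintype.prod_sum]
    apply Finset.sum_congr rfl
    intro f _
    rw [Finset.prod_ite_eq' univ v (fun w => ψ (f w))]
    simp
  have hT : (0 : ℝ) < Fintype.card T := by exact_mod_cast Fintype.card_pos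
  rw [h1, ← Finset.mul_prod_erase univ _ (mem_univ v)]
  simp only [if_true]
  have h2 : ∏ w ∈ univ.erase v, (∑ t : T, (if w = v then ψ t else (1 : ℝ))) =
      (Fintype.card T : ℝ) ^ (Fintype.card V - 1) := by
    rw [Finset.prod_congr rfl (g := fun _ => (Fintype.card T : ℝ))]
    · rw [Finset.prod_const, Finset.card_erase_of_mem (mem_univ v), Finset.card_univ]
    · intro w hw
      rw [Finset.sum_congr rfl (fun t _ => if_neg (Finset.ne_of_mem_erase hw))]
      simp
  rw [h2, Fintype.card_fun]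
  have h3 : 0 < Fintype.card V := Fintype.card_pos_iff.2 ⟨v⟩
  obtain ⟨m, hm⟩ : ∃ m, Fintype.card V = m + 1 := ⟨Fintype.card V - 1, by omega⟩
  rw [hm, Nat.add_sub_cancel]
  push_cast
  rw [pow_succ]
  field_simp

theorem avg_lin [Fintype V] [Fintype T] [Nonempty T] (A : Finset V) (om : V → ℝ)
    (P : T → Prop) : avgL (lin A om P) =
      (∑ v ∈ A, om v) * (((univ.filter P).card : ℝ) / Fintype.card T) := by
  have h1 : avgL (lin A om P) = ∑ v ∈ A, om v * avgL (fun f : V → T =>
      (fun t => if P t then (1 : ℝ) else 0) (f v)) := by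
    unfold avgL lin
    rw [Finset.sum_comm, Finset.sum_div]
    apply Finset.sum_congr rfl
    intro v _
    rw [← Finset.mul_sum, mul_div_assoc]
  rw [h1, Finset.sum_mul]
  apply Finset.sum_congr rfl
  intro v _
  rw [avg_one (fun t : T => if P t then (1 : ℝ) else 0) v]
  congr 2
  rw [Finset.sum_ite]
  simp

end lin

/-- the type is `none` or `some i` -/
def Ty {M1 R0 : ℕ} (i : Fin R0) (x : Lb M1 R0) : Prop :=
  x.2.2.map Prod.snd = none ∨ x.2.2.map Prod.snd = some i

/-- the probability of two types -/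
theorem prob_typ (M1 R0 : ℕ) (hR : 0 < R0) (i : Fin R0) :
    (((univ : Finset (Lb M1 R0)).filter (Ty i)).card : ℝ) / Fintype.card (Lb M1 R0) ≤
      2 / R0 := by
  have hc : Fintype.card (Lb M1 R0) = 6 * ((3 * M1 + 1) * R0 + 1) := by
    unfold Lb Kp
    simp only [Fintype.card_prod, Fintype.card_option, Fintype.card_fin, Fintype.card_bool]
    ring
  have hle : ((univ : Finset (Lb M1 R0)).filter (Ty i)).card ≤ 6 * ((3 * M1 + 1) + 1) := by
    have hsub : (univ : Finset (Lb M1 R0)).filter (Ty i) ⊆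
        ((univ : Finset (Fin 3)) ×ˢ ((univ : Finset Bool) ×ˢ
          (((univ : Finset (Kp M1)).image (fun κ => some (κ, i))) ∪ {none}))) := by
      intro x hx
      rw [mem_filter] at hx
      rw [mem_product, mem_product]
      refine ⟨mem_univ _, mem_univ _, ?_⟩
      rw [mem_union, mem_image, mem_singleton]
      rcases hx.2 with h | h
      · right
        simpa using h
      · left
        rw [Option.map_eq_some_iff] at h
        obtain ⟨a, ha, hb⟩ := h
        exact ⟨a.1, mem_univ _, by rw [ha, ← hb]⟩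
    refine (card_le_card hsub).trans ?_
    rw [card_product, card_product]
    have h1 : (((univ : Finset (Kp M1)).image (fun κ => some (κ, i))) ∪ {none}).card ≤
        (3 * M1 + 1) + 1 := by
      refine (card_union_le _ _).trans ?_
      rw [card_singleton]
      have := card_image_le (s := (univ : Finset (Kp M1))) (f := fun κ => some (κ, i))
      rw [Finset.card_univ] at this
      have h2 : Fintype.card (Kp M1) = 3 * M1 + 1 := by
        unfold Kp
        simp only [Fintype.card_prod, Fintype.card_option, Fintype.card_fin]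
      rw [h2] at this
      omega
    have h3 : (univ : Finset (Fin 3)).card = 3 := by simp
    have h4 : (univ : Finset Bool).card = 2 := by simp
    rw [h3, h4]
    omega
  have hR' : (0 : ℝ) < R0 := by exact_mod_cast hR
  rw [hc, div_le_div_iff₀ (by positivity) hR']
  have h2 : (((univ : Finset (Lb M1 R0)).filter (Ty i)).card : ℝ) ≤
      6 * ((3 * M1 + 1) + 1) := by exact_mod_cast hle
  push_cast
  have hR1 : (1 : ℝ) ≤ R0 := by exact_mod_cast hR
  have hM : (0 : ℝ) ≤ M1 := Nat.cast_nonneg _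
  nlinarith [mul_le_mul_of_nonneg_right h2 hR'.le, mul_nonneg hM hR'.le]

/-- linear tests give `TQn` -/
theorem tqn_lin {V : Type u} [Fintype V] {T : Type} {J : Type u} [Fintype J] (M : ℕ) (s : ℝ)
    (d : ℕ) (A : J → Finset V) (om : J → V → ℝ) (P : J → T → Prop) (tt : J → ℝ) (hs : 0 ≤ s)
    (h0 : ∀ j v, 0 ≤ om j v) (hnum : ∀ v, (univ.filter (fun j => v ∈ A j)).card ≤ M)
    (ht : ∀ j, 0 < tt j)
    (hbig : ∀ j, s * (Real.log d ^ 2 + ((A j).card : ℝ) / d) * ∑ v ∈ A j, om j v ^ 2 ≤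
      tt j ^ 2) :
    TQn M s d (fun j => lin (A j) (om j) (P j)) (fun j v => if v ∈ A j then om j v else 0)
      tt := by
  have hsub : ∀ j, univ.filter (fun v => (if v ∈ A j then om j v else 0) ≠ 0) ⊆ A j := by
    intro j v hv
    rw [mem_filter] at hv
    by_contra h
    exact hv.2 (if_neg h)
  refine ⟨?_, ?_, ?_, ht, ?_⟩
  · intro j v
    split_ifs
    · exact h0 j v
    · exact le_rfl
  · intro j v f f' h
    exact lin_lip _ _ (h0 j) _ v f f' h
  · intro v
    refine (card_le_card ?_).trans (hnum v)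
    intro j hj
    rw [mem_filter] at hj ⊢
    refine ⟨mem_univ _, ?_⟩
    by_contra h
    exact hj.2 (if_neg h)
  · intro j
    have hsq : ∑ v, (if v ∈ A j then om j v else 0) ^ 2 = ∑ v ∈ A j, om j v ^ 2 := by
      rw [← Finset.sum_filter_add_sum_filter_not univ (fun v => v ∈ A j)]
      rw [Finset.sum_eq_zero (s := univ.filter (fun v => v ∉ A j)), add_zero]
      · rw [Finset.filter_mem_eq_inter, Finset.univ_inter]
        apply Finset.sum_congr rfl
        intro v hv
        rw [if_pos hv]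
      · intro v hv
        rw [if_neg (mem_filter.1 hv).2]
        norm_num
    refine le_trans ?_ (hbig j)
    rw [hsq]
    have h1 : 0 ≤ ∑ v ∈ A j, om j v ^ 2 := Finset.sum_nonneg fun v _ => sq_nonneg _
    apply mul_le_mul_of_nonneg_right _ h1
    apply mul_le_mul_of_nonneg_left _ hs
    have h2 : ((univ.filter (fun v => (if v ∈ A j then om j v else 0) ≠ 0)).card : ℝ) ≤
        (A j).card := by exact_mod_cast card_le_card (hsub j)
    have h3 := div_le_div_of_nonneg_right h2 (Nat.cast_nonneg (α := ℝ) d)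
    linarith

section tests
variable {V : Type u} [Fintype V]

/-- the set of the test `o` at the spot `Y` -/
noncomputable def tA {R0 : ℕ} (G : SimpleGraph V) (d : ℕ) (Ys : Finset (Finset V))
    (Hs Gd Y : Finset V) (o : Option (Fin R0)) : Finset V :=
  if o = none then (if Y ∈ shs d Ys then Y \ Hs else ∅)
  else if Y ∈ sms G d Hs Ys then Y ∩ Gd else ∅

/-- the weights -/
noncomputable def tO {R0 : ℕ} (G : SimpleGraph V) (d : ℕ) (Ys : Finset (Finset V))
    (Hs Y : Finset V) (o : Option (Fin R0)) (v : V) : ℝ :=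
  if Y ∉ sms G d Hs Ys ∧ o = none then max ((d : ℝ) - (nb G v ∩ Y).card) 0 else 1

/-- the allowed errors -/
noncomputable def tT {R0 : ℕ} (ε : ℝ) (G : SimpleGraph V) (d : ℕ) (Ys : Finset (Finset V))
    (Hs Y : Finset V) (o : Option (Fin R0)) : ℝ :=
  if o = none then (if Y ∈ sms G d Hs Ys then ε * Y.card / 2 else
    if Y ∈ shs d Ys then ε * wl G d Hs Y / 2 else 1)
  else ε * Real.log d ^ 8 / 2

theorem tA_sub {R0 : ℕ} (G : SimpleGraph V) (d : ℕ) (Ys : Finset (Finset V))
    (Hs Gd Y : Finset V) (o : Option (Fin R0)) : tA G d Ys Hs Gd Y o ⊆ Y := by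
  unfold tA
  split_ifs
  · exact sdiff_subset
  · exact empty_subset _
  · exact inter_subset_left
  · exact empty_subset _

theorem tO_nonneg {R0 : ℕ} (G : SimpleGraph V) (d : ℕ) (Ys : Finset (Finset V))
    (Hs Y : Finset V) (o : Option (Fin R0)) (v : V) : 0 ≤ tO G d Ys Hs Y o v := by
  unfold tO
  split_ifs
  · exact le_max_right _ _
  · norm_num

end tests

/-- the numbers -/
theorem ev_log : ∃ d1 : ℕ, ∀ d : ℕ, d1 ≤ d → (10 : ℝ) ≤ d ∧ 10 ≤ Real.log d ∧
    Real.log d ^ 3 ≤ d := by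
  have hev : ∀ᶠ x : ℝ in Filter.atTop, (10 : ℝ) ≤ x ∧ 10 ≤ Real.log x ∧
      Real.log x ^ 3 ≤ x := by
    refine (Filter.eventually_ge_atTop 10).and ((Real.tendsto_log_atTop.eventually_ge_atTop
      10).and ?_)
    have h := isLittleO_log_rpow_atTop (r := 1 / 3) (by norm_num)
    have h1 := h.bound (c := 1) one_pos
    filter_upwards [h1, Filter.eventually_ge_atTop (1 : ℝ)] with x hx hx1
    rw [one_mul, Real.norm_of_nonneg (Real.log_nonneg hx1),
      Real.norm_of_nonneg (by positivity)] at hx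
    calc Real.log x ^ 3 ≤ (x ^ (1 / 3 : ℝ)) ^ 3 := pow_le_pow_left₀ (Real.log_nonneg hx1) hx 3
      _ = x := by
        rw [← Real.rpow_natCast, ← Real.rpow_mul (by positivity)]
        norm_num
  obtain ⟨x0, hx0⟩ := Filter.eventually_atTop.1 hev
  obtain ⟨d1, hd1⟩ := exists_nat_ge x0
  exact ⟨d1, fun d hd => hx0 (d : ℝ) (hd1.trans (by exact_mod_cast hd))⟩

section spot
variable {V : Type u} [Fintype V] {k R0 : ℕ} {ε θ θ' η εg : ℝ} {G EH : SimpleGraph V} {d : ℕ}
  {Ys : Finset (Finset V)} {UH Hs Gd : Finset V} {c0 tu : V → Fin k}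

theorem om_bd (hθ : θ ≤ 1 / 100) (hG : Grp θ θ' η G EH d Ys UH Hs c0 tu) (Y : Finset V)
    (hY : Y ∈ Ys) (v : V) (hv : v ∈ Y) : 0 ≤ (d : ℝ) - (nb G v ∩ Y).card ∧
      (d : ℝ) - (nb G v ∩ Y).card ≤ d / 100 := by
  have hd0 : (0 : ℝ) ≤ d := Nat.cast_nonneg _
  have h1 := hG.din Y hY v hv
  have h2 : ((nb G v ∩ Y).card : ℝ) ≤ d := by
    exact_mod_cast (card_le_card inter_subset_left).trans (hG.deg v)
  constructor
  · linarith
  · nlinarith

theorem wl_low (Y : Finset V) (hY : Y ∈ shs d Ys) (hY' : Y ∉ sms G d Hs Ys) :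
    Real.log d ^ 3 * Y.card ≤ wl G d Hs Y := by
  by_contra h
  exact hY' (mem_filter.2 ⟨hY, not_le.1 h⟩)

theorem gd_upp (hεg : εg ≤ 1 / 10) (hGd : Gds εg G EH d Ys UH Hs Gd c0) (Y : Finset V)
    (hY : Y ∈ sms G d Hs Ys) : ((Y ∩ Gd).card : ℝ) ≤ 1.1 * Real.log d ^ 8 := by
  have h1 := hGd.t0 Y hY
  have h2 := (abs_le.1 h1).2
  have h3 : (0 : ℝ) ≤ Real.log d ^ 8 := by
    have : Real.log d ^ 8 = (Real.log d ^ 4) ^ 2 := by ring
    rw [this]
    exact sq_nonneg _
  nlinarith

theorem spot_big (hε : 0 < ε) (hθ : θ ≤ 1 / 100) (hεg : εg ≤ 1 / 10)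
    (hd10 : (10 : ℝ) ≤ d) (hlog10 : 10 ≤ Real.log d) (hlog3 : Real.log d ^ 3 ≤ d)
    (hG : Grp θ θ' η G EH d Ys UH Hs c0 tu) (hGd : Gds εg G EH d Ys UH Hs Gd c0)
    (Y : Finset V) (hY : Y ∈ Ys) (o : Option (Fin R0)) :
    ε ^ 2 * (2 * Real.log d ^ 2) * ∑ v ∈ tA G d Ys Hs Gd Y o, tO G d Ys Hs Y o v ^ 2 ≤
      tT ε G d Ys Hs Y o ^ 2 := by
  have hl : 0 < Real.log d := by linarith
  have hl2 : 0 ≤ Real.log d ^ 2 := sq_nonneg _
  have hl3 : 0 ≤ Real.log d ^ 3 := by positivity
  have h10 : 10 * Real.log d ^ 2 ≤ Real.log d ^ 3 := by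
    calc 10 * Real.log d ^ 2 ≤ Real.log d * Real.log d ^ 2 := by gcongr
      _ = Real.log d ^ 3 := by ring
  have hYl : 0.99 * (d : ℝ) ≤ Y.card := by
    have := hG.low Y hY
    nlinarith
  by_cases ho : o = none
  · unfold tA tT
    rw [if_pos ho, if_pos ho]
    by_cases h1 : Y ∈ sms G d Hs Ys
    · have h2 : Y ∈ shs d Ys := (mem_filter.1 h1).1
      rw [if_pos h1, if_pos h2]
      have h3 : ∑ v ∈ Y \ Hs, tO G d Ys Hs Y o v ^ 2 ≤ Y.card := by
        have h4 : ∑ v ∈ Y \ Hs, tO G d Ys Hs Y o v ^ 2 = ((Y \ Hs).card : ℝ) := by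
          rw [Finset.sum_congr rfl (g := fun _ => (1 : ℝ))]
          · simp
          · intro v _
            unfold tO
            rw [if_neg]
            · norm_num
            · exact fun h => h.1 h1
        rw [h4]
        exact_mod_cast card_le_card sdiff_subset
      have h5 : 8 * Real.log d ^ 2 ≤ Y.card := by linarith
      calc ε ^ 2 * (2 * Real.log d ^ 2) * _ ≤ ε ^ 2 * (2 * Real.log d ^ 2) * Y.card := by
            gcongr
        _ = ε ^ 2 / 4 * Y.card * (8 * Real.log d ^ 2) := by ring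
        _ ≤ ε ^ 2 / 4 * Y.card * Y.card := by gcongr
        _ = (ε * Y.card / 2) ^ 2 := by ring
    · rw [if_neg h1]
      by_cases h2 : Y ∈ shs d Ys
      · rw [if_pos h2, if_pos h2]
        have hw := wl_low Y h2 h1
        have hwl1 : 0 ≤ wl G d Hs Y := le_trans (by positivity) hw
        have h3 : ∑ v ∈ Y \ Hs, tO G d Ys Hs Y o v ^ 2 ≤ d / 100 * wl G d Hs Y := by
          unfold wl
          rw [Finset.mul_sum]
          apply Finset.sum_le_sum
          intro v hv
          obtain ⟨g1, g2⟩ := om_bd hθ hG Y hY v (mem_sdiff.1 hv).1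
          unfold tO
          rw [if_pos ⟨h1, ho⟩, max_eq_left g1, sq]
          exact mul_le_mul_of_nonneg_right g2 g1
        have h5 : 8 * Real.log d ^ 2 * (d / 100) ≤ wl G d Hs Y := by
          refine le_trans ?_ hw
          calc 8 * Real.log d ^ 2 * (d / 100) ≤ 10 * Real.log d ^ 2 * (0.99 * d) := by
                have : 0 ≤ Real.log d ^ 2 * d := by positivity
                nlinarith
            _ ≤ Real.log d ^ 3 * Y.card := by gcongr
        calc ε ^ 2 * (2 * Real.log d ^ 2) * _ ≤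
              ε ^ 2 * (2 * Real.log d ^ 2) * (d / 100 * wl G d Hs Y) := by gcongr
          _ = ε ^ 2 / 4 * wl G d Hs Y * (8 * Real.log d ^ 2 * (d / 100)) := by ring
          _ ≤ ε ^ 2 / 4 * wl G d Hs Y * wl G d Hs Y := by gcongr
          _ = (ε * wl G d Hs Y / 2) ^ 2 := by ring
      · rw [if_neg h2, if_neg h2, Finset.sum_empty]
        norm_num
  · unfold tA tT
    rw [if_neg ho, if_neg ho]
    by_cases h1 : Y ∈ sms G d Hs Ys
    · rw [if_pos h1]
      have h3 : ∑ v ∈ Y ∩ Gd, tO G d Ys Hs Y o v ^ 2 ≤ 1.1 * Real.log d ^ 8 := by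
        have h4 : ∑ v ∈ Y ∩ Gd, tO G d Ys Hs Y o v ^ 2 = ((Y ∩ Gd).card : ℝ) := by
          rw [Finset.sum_congr rfl (g := fun _ => (1 : ℝ))]
          · simp
          · intro v _
            unfold tO
            rw [if_neg]
            · norm_num
            · exact fun h => h.1 h1
        rw [h4]
        exact gd_upp hεg hGd Y h1
      have h5 : 8 * Real.log d ^ 2 * 1.1 ≤ Real.log d ^ 8 := by
        have h6 : (10 : ℝ) ^ 6 ≤ Real.log d ^ 6 := pow_le_pow_left₀ (by norm_num) hlog10 6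
        calc 8 * Real.log d ^ 2 * 1.1 ≤ 10 ^ 6 * Real.log d ^ 2 := by linarith
          _ ≤ Real.log d ^ 6 * Real.log d ^ 2 := by gcongr
          _ = Real.log d ^ 8 := by ring
      calc ε ^ 2 * (2 * Real.log d ^ 2) * _ ≤
            ε ^ 2 * (2 * Real.log d ^ 2) * (1.1 * Real.log d ^ 8) := by gcongr
        _ = ε ^ 2 / 4 * Real.log d ^ 8 * (8 * Real.log d ^ 2 * 1.1) := by ring
        _ ≤ ε ^ 2 / 4 * Real.log d ^ 8 * Real.log d ^ 8 := by gcongr
        _ = (ε * Real.log d ^ 8 / 2) ^ 2 := by ring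
    · rw [if_neg h1, Finset.sum_empty, mul_zero]
      positivity

theorem spot_pos (hε : 0 < ε) (hθ : θ ≤ 1 / 100)
    (hd10 : (10 : ℝ) ≤ d) (hlog10 : 10 ≤ Real.log d)
    (hG : Grp θ θ' η G EH d Ys UH Hs c0 tu)
    (Y : Finset V) (hY : Y ∈ Ys) (o : Option (Fin R0)) : 0 < tT ε G d Ys Hs Y o := by
  have hl : 0 < Real.log d := by linarith
  have hYc : 0 < (Y.card : ℝ) := by
    have := hG.low Y hY
    nlinarith
  unfold tT
  split_ifs with h0 h1 h2
  · positivity
  · have h3 := wl_low Y h2 h1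
    have : 0 < wl G d Hs Y := lt_of_lt_of_le (by positivity) h3
    positivity
  · norm_num
  · positivity

end spot

theorem stmt_TLB : Stmt_TLB.{u} := by
  intro ε hε
  obtain ⟨Rm, hRm⟩ := exists_nat_ge (5 / ε)
  refine ⟨Rm + 1, ε ^ 2, by positivity, ?_⟩
  intro M1 R0 hR0
  have hR0' : 0 < R0 := by omega
  have hRr : 5 / ε ≤ R0 := by
    refine hRm.trans ?_
    have : Rm ≤ R0 := by omega
    exact_mod_cast this
  have hR1 : (0 : ℝ) < R0 := by exact_mod_cast hR0'
  have h2R : 2 / (R0 : ℝ) ≤ 2 / 5 * ε := by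
    rw [div_le_iff₀ hR1]
    rw [div_le_iff₀ hε] at hRr
    nlinarith
  obtain ⟨d1, hd1⟩ := ev_log
  refine ⟨max d1 (R0 + 1), ?_⟩
  intro V _ k θ θ' η εg G EH d Ys UH Hs Gd c0 tu j0 hd hθ hεg hG hGd
  obtain ⟨hd10, hlog10, hlog3⟩ := hd1 d ((le_max_left _ _).trans hd)
  have hdR : R0 + 1 ≤ d := (le_max_right _ _).trans hd
  have hd0 : (0 : ℝ) < d := by linarith
  have hl2 : 0 ≤ Real.log d ^ 2 := sq_nonneg _
  have hl8 : 0 ≤ Real.log d ^ 8 := by positivity
  have hshs : ∀ Y, Y ∈ shs d Ys → Y ∈ Ys := fun Y h => (mem_filter.1 h).1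
  have hsms : ∀ Y, Y ∈ sms G d Hs Ys → Y ∈ shs d Ys := fun Y h => (mem_filter.1 h).1
  have htq := tqn_lin (V := V) (T := Lb M1 R0) (J := {Y // Y ∈ Ys} × ULift.{u} (Option (Fin R0)))
    (d ^ 3) (ε ^ 2) d (fun j => tA G d Ys Hs Gd j.1.1 j.2.down)
    (fun j => tO G d Ys Hs j.1.1 j.2.down)
    (fun j => Ty (j.2.down.getD j0))
    (fun j => tT ε G d Ys Hs j.1.1 j.2.down) (by positivity)
    (fun j v => tO_nonneg _ _ _ _ _ _ _)
    (by
      intro v
      have h2 : (univ.filter (fun j : {Y // Y ∈ Ys} × ULift.{u} (Option (Fin R0)) =>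
          v ∈ tA G d Ys Hs Gd j.1.1 j.2.down)).card ≤
          (univ : Finset (ULift.{u} (Option (Fin R0)))).card := by
        apply card_le_card_of_injOn (fun j => j.2) (fun _ _ => mem_coe.2 (mem_univ _))
        intro j hj j' hj' h
        have hj1 : v ∈ j.1.1 := tA_sub _ _ _ _ _ _ _ (mem_filter.1 (mem_coe.1 hj)).2
        have hj1' : v ∈ j'.1.1 := tA_sub _ _ _ _ _ _ _ (mem_filter.1 (mem_coe.1 hj')).2
        apply Prod.ext
        · apply Subtype.ext
          by_contra hne
          exact disjoint_left.1 (hG.dis _ j.1.2 _ j'.1.2 hne) hj1 hj1'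
        · exact h
      refine h2.trans ?_
      rw [Finset.card_univ, Fintype.card_ulift, Fintype.card_option, Fintype.card_fin]
      refine hdR.trans ?_
      calc d = d ^ 1 := (pow_one d).symm
        _ ≤ d ^ 3 := Nat.pow_le_pow_right (by omega) (by norm_num))
    (fun j => spot_pos hε hθ hd10 hlog10 hG j.1.1 j.1.2 _)
    (by
      intro j
      refine le_trans ?_ (spot_big hε hθ hεg hd10 hlog10 hlog3 hG hGd j.1.1 j.1.2 j.2.down)
      apply mul_le_mul_of_nonneg_right _ (Finset.sum_nonneg fun v _ => sq_nonneg _)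
      apply mul_le_mul_of_nonneg_left _ (by positivity)
      have h1 : ((tA G d Ys Hs Gd j.1.1 j.2.down).card : ℝ) ≤ j.1.1.card := by
        exact_mod_cast card_le_card (tA_sub _ _ _ _ _ _ _)
      have h2 : (j.1.1.card : ℝ) ≤ 2 * d := by
        have := hG.upp j.1.1 j.1.2
        nlinarith
      have h3 : ((tA G d Ys Hs Gd j.1.1 j.2.down).card : ℝ) / d ≤ 2 := by
        rw [div_le_iff₀ hd0]
        linarith
      nlinarith)
  refine ⟨_, _, _, _, _, htq, ?_⟩
  intro lb hlb
  have hup : ∀ (Y : Finset V) (hY : Y ∈ Ys) (o : Option (Fin R0)),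
      ∑ v ∈ (tA G d Ys Hs Gd Y o).filter (fun v => Ty (o.getD j0) (lb v)),
        tO G d Ys Hs Y o v ≤
      (∑ v ∈ tA G d Ys Hs Gd Y o, tO G d Ys Hs Y o v) * (2 / 5 * ε) +
        tT ε G d Ys Hs Y o := by
    intro Y hY o
    have h1 : lin (tA G d Ys Hs Gd Y o) (tO G d Ys Hs Y o) (Ty (o.getD j0)) lb -
        avgL (lin (tA G d Ys Hs Gd Y o) (tO G d Ys Hs Y o) (Ty (M1 := M1) (o.getD j0))) ≤
        tT ε G d Ys Hs Y o := (abs_le.1 (hlb ⟨⟨Y, hY⟩, ⟨o⟩⟩)).2
    rw [lin_eq, avg_lin] at h1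
    have h2 : (∑ v ∈ tA G d Ys Hs Gd Y o, tO G d Ys Hs Y o v) *
        ((((univ : Finset (Lb M1 R0)).filter (Ty (o.getD j0))).card : ℝ) /
          Fintype.card (Lb M1 R0)) ≤
        (∑ v ∈ tA G d Ys Hs Gd Y o, tO G d Ys Hs Y o v) * (2 / 5 * ε) := by
      apply mul_le_mul_of_nonneg_left _ (Finset.sum_nonneg fun v _ => tO_nonneg _ _ _ _ _ _ _)
      exact (prob_typ M1 R0 hR0' _).trans h2R
    linarith
  refine ⟨?_, ?_, ?_⟩
  · intro Y hY hY'
    have h1 := hup Y (hshs Y hY) none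
    have eA : tA (R0 := R0) G d Ys Hs Gd Y none = Y \ Hs := by
      unfold tA
      rw [if_pos rfl, if_pos hY]
    have eT : tT (R0 := R0) ε G d Ys Hs Y none = ε * wl G d Hs Y / 2 := by
      unfold tT
      rw [if_pos rfl, if_neg hY', if_pos hY]
    rw [eA, eT, Option.getD_none] at h1
    have hw := wl_low Y hY hY'
    have hl : 0 < Real.log d := by linarith
    have hwl1 : 0 ≤ wl G d Hs Y := le_trans (by positivity) hw
    have h2 : ∀ v ∈ Y \ Hs, tO (R0 := R0) G d Ys Hs Y none v =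
        (d : ℝ) - (nb G v ∩ Y).card := by
      intro v hv
      unfold tO
      rw [if_pos ⟨hY', rfl⟩, max_eq_left (om_bd hθ hG Y (hshs Y hY) v (mem_sdiff.1 hv).1).1]
    have h3 : ∑ v ∈ Y \ Hs, tO (R0 := R0) G d Ys Hs Y none v = wl G d Hs Y :=
      Finset.sum_congr rfl h2
    rw [h3] at h1
    rw [Finset.sum_congr rfl (fun v hv => h2 v (mem_filter.1 hv).1)] at h1
    refine le_trans (le_of_eq ?_) (h1.trans (b := _) (c := ε * wl G d Hs Y) ?_)
    · apply Finset.sum_congr _ (fun _ _ => rfl)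
      ext v
      simp only [mem_filter, Ty]
    · nlinarith
  · intro Y hY
    have hY1 := hsms Y hY
    have h1 := hup Y (hshs Y hY1) none
    have eA : tA (R0 := R0) G d Ys Hs Gd Y none = Y \ Hs := by
      unfold tA
      rw [if_pos rfl, if_pos hY1]
    have eT : tT (R0 := R0) ε G d Ys Hs Y none = ε * Y.card / 2 := by
      unfold tT
      rw [if_pos rfl, if_pos hY]
    rw [eA, eT, Option.getD_none] at h1
    have h2 : ∀ v, tO (R0 := R0) G d Ys Hs Y none v = 1 := by
      intro v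
      unfold tO
      rw [if_neg]
      exact fun h => h.1 hY
    simp only [h2] at h1
    rw [Finset.sum_const, Finset.sum_const, nsmul_eq_mul, nsmul_eq_mul, mul_one, mul_one] at h1
    have h3 : (((Y \ Hs).card : ℕ) : ℝ) ≤ Y.card := by
      exact_mod_cast card_le_card sdiff_subset
    have h5 : (0 : ℝ) ≤ Y.card := Nat.cast_nonneg _
    refine le_trans (le_of_eq ?_) (h1.trans (b := _) (c := ε * (Y.card : ℝ)) ?_)
    · congr 2
      ext v
      simp only [mem_filter, Ty]
    · nlinarith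
  · intro Y hY i
    have hY1 := hsms Y hY
    have h1 := hup Y (hshs Y hY1) (some i)
    have eA : tA (R0 := R0) G d Ys Hs Gd Y (some i) = Y ∩ Gd := by
      unfold tA
      rw [if_neg (Option.some_ne_none i), if_pos hY]
    have eT : tT (R0 := R0) ε G d Ys Hs Y (some i) = ε * Real.log d ^ 8 / 2 := by
      unfold tT
      rw [if_neg (Option.some_ne_none i)]
    rw [eA, eT, Option.getD_some] at h1
    have h2 : ∀ v, tO (R0 := R0) G d Ys Hs Y (some i) v = 1 := by
      intro v
      unfold tO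
      rw [if_neg]
      exact fun h => h.1 hY
    simp only [h2] at h1
    rw [Finset.sum_const, Finset.sum_const, nsmul_eq_mul, nsmul_eq_mul, mul_one, mul_one] at h1
    have h3 := gd_upp hεg hGd Y hY
    have h6 : ((Y ∩ Gd).card : ℝ) * (2 / 5 * ε) ≤ 1.1 * Real.log d ^ 8 * (2 / 5 * ε) :=
      mul_le_mul_of_nonneg_right h3 (by positivity)
    have h7 := mul_nonneg hl8 hε.le
    refine le_trans (le_of_eq ?_) (h1.trans (b := _) (c := ε * Real.log d ^ 8) ?_)
    · congr 2
      ext v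
      simp only [mem_filter, Ty]
    · linarith

end Pool.Agent.Work.MP_db9399_sx.helper6
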